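import Pool.Agent.Helper83_DPB.Stmts

open Filter Topology Set

namespace Pool.Agent.Helper83_DPB.H3

theorem hb {A X : Type} [NormedAddCommGroup A] [NormedSpace ℂ A]
    [NormedAddCommGroup X] [NormedSpace ℂ X] (J : A →ₗᵢ[ℂ] X) (x : X) (ε : ℝ)
    (h : ∀ z : A, ε ≤ ‖x - J z‖) :
    ∃ φ : X →L[ℂ] ℂ, ‖φ‖ ≤ 1 ∧ (∀ a, φ (J a) = 0) ∧ ε ≤ ‖φ x‖ := by
  obtain ⟨S, hS⟩ : ∃ S : Submodule ℂ X, S = LinearMap.range J.toLinearMap := ⟨_, rfl⟩
  have hmem : ∀ a, J a ∈ S := by intro a; rw [hS]; exact ⟨a, rfl⟩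
  have h1 : ε ≤ ‖(Submodule.Quotient.mk x : X ⧸ S)‖ := by
    by_contra hcon
    push Not at hcon
    obtain ⟨m, hm1, hm2⟩ := Submodule.Quotient.norm_mk_lt (Submodule.Quotient.mk x : X ⧸ S)
      (sub_pos.mpr hcon)
    have h2 : x - m ∈ S := by
      rw [← Submodule.Quotient.eq S]
      exact hm1.symm
    rw [hS] at h2
    obtain ⟨z, hz⟩ := h2
    have h3 := h z
    have h4 : x - J z = m := by
      have : J z = x - m := hz
      rw [this]; abel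
    rw [h4] at h3
    linarith
  obtain ⟨g, hg1, hg2⟩ := exists_dual_vector'' ℂ (Submodule.Quotient.mk x : X ⧸ S)
  refine ⟨g.comp S.mkQL, ?_, ?_, ?_⟩
  · refine ContinuousLinearMap.opNorm_le_bound _ zero_le_one (fun y => ?_)
    have h2 := g.le_opNorm (S.mkQL y)
    have h3 : ‖S.mkQL y‖ ≤ ‖y‖ := Submodule.Quotient.norm_mk_le S y
    calc ‖g (S.mkQL y)‖ ≤ ‖g‖ * ‖S.mkQL y‖ := h2
      _ ≤ 1 * ‖y‖ := mul_le_mul hg1 h3 (norm_nonneg _) zero_le_one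
  · intro a
    change g (Submodule.Quotient.mk (J a)) = 0
    rw [(Submodule.Quotient.mk_eq_zero S).mpr (hmem a), map_zero]
  · change ε ≤ ‖g (Submodule.Quotient.mk x)‖
    rw [hg2]
    refine h1.trans (le_of_eq ?_)
    simp

theorem cross (hSub : SubStmt) (hTail : TailStmt) (hVar : VarStmt) (hVar5 : Var5Stmt) :
    CrossStmt := by
  intro Ω A X _ _ _ _ S J hG hSep T b y hBD ε hε
  by_contra hcon
  rw [Filter.not_eventually] at hcon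
  obtain ⟨ν, hν, hνp⟩ := Filter.extraction_of_frequently_atTop hcon
  obtain ⟨hb1, hb2, hb3, hb4⟩ := hBD
  have hφ : ∀ n, ∃ φ : X →L[ℂ] ℂ, ‖φ‖ ≤ 1 ∧ (∀ a, φ (J a) = 0) ∧ ε ≤ ‖φ (T (y (ν n)))‖ := by
    intro n
    apply hb J _ ε
    intro z
    by_contra hz
    push Not at hz
    exact hνp n ⟨z, hz⟩
  choose φ hφ1 hφ2 hφ3 using hφ
  obtain ⟨κ, hκ, hκl⟩ := hSub A X J hSep φ 1 hφ1 (fun a => by
    have : (fun n => φ n (J a)) = fun _ => (0 : ℂ) := by ext n; exact hφ2 n a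
    rw [this]; exact tendsto_const_nhds)
  -- the relabelled sequences
  obtain ⟨ψ, hψ⟩ : ∃ ψ : ℕ → (X →L[ℂ] ℂ), ψ = fun k => φ (κ k) := ⟨_, rfl⟩
  obtain ⟨Y, hY⟩ : ∃ Y : ℕ → A, Y = fun k => y (ν (κ k)) := ⟨_, rfl⟩
  obtain ⟨bb, hbb⟩ : ∃ bb : ℕ → Set Ω, bb = fun k => b (ν (κ k)) := ⟨_, rfl⟩
  have hbbB : ∀ k, bb k ∈ S.B := by intro k; rw [hbb]; exact hb1 _
  have hbbD : ∀ i j, i ≠ j → Disjoint (bb i) (bb j) := by
    intro i j hij
    rw [hbb]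
    apply hb2
    intro h
    exact hij (hκ.injective (hν.injective h))
  have hYn : ∀ k, ‖Y k‖ ≤ 1 := by intro k; rw [hY]; exact hb3 _
  have hYs : ∀ k, ∀ t ∉ bb k, S.ev (Y k) t = 0 := by
    intro k t ht
    rw [hbb] at ht
    rw [hY]
    exact hb4 _ t ht
  have hψY : ∀ k, ε ≤ ‖ψ k (T (Y k))‖ := by
    intro k; rw [hψ, hY]; exact hφ3 _
  have hψl : ∀ x, ∃ l : ℂ, Tendsto (fun n => ψ n x) atTop (𝓝 l) := by
    intro x; rw [hψ]; exact hκl x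
  obtain ⟨hV1, hV2, hV3, -, -, -, -⟩ := hVar Ω A S
  -- small cross terms
  have hsmall : ∀ p, ∃ t : ℕ, ∀ q ≥ t, ‖ψ p (T (Y q))‖ ≤ ε / 4 := by
    intro p
    obtain ⟨t, ht⟩ := hTail Ω S.B S.alg (vr S ((ψ p).comp T)) (hV1 _) bb hbbB hbbD (ε / 4)
      (by positivity)
    refine ⟨t, fun q hq => ?_⟩
    have h1 := ht {q} (by intro k hk; rw [Finset.mem_singleton] at hk; rw [hk]; exact hq)
    rw [Finset.sum_singleton] at h1
    have h2 := hV2 ((ψ p).comp T) (bb q) (Y q) (hYs q)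
    have h3 : vr S ((ψ p).comp T) (bb q) * ‖Y q‖ ≤ vr S ((ψ p).comp T) (bb q) * 1 :=
      mul_le_mul_of_nonneg_left (hYn q) ((hV1 _).nonneg _ (hbbB q))
    have h4 : ‖ψ p (T (Y q))‖ = ‖((ψ p).comp T) (Y q)‖ := rfl
    rw [h4]
    linarith
  choose t ht using hsmall
  -- the indices
  let P : ℕ → ℕ := fun j => Nat.rec 0 (fun _ p => max (t p) (p + 1) + 1) j
  obtain ⟨P, hP0, hPs⟩ : ∃ P : ℕ → ℕ, P 0 = 0 ∧ ∀ j, P (j + 1) = max (t (P j)) (P j + 1) + 1 :=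
    ⟨P, rfl, fun _ => rfl⟩
  obtain ⟨q, hq⟩ : ∃ q : ℕ → ℕ, ∀ j, q j = max (t (P j)) (P j + 1) := ⟨_, fun _ => rfl⟩
  have hPq : ∀ j, P j < q j := by intro j; rw [hq]; exact lt_of_lt_of_le (Nat.lt_succ_self _) (le_max_right _ _)
  have hqP : ∀ j, q j < P (j + 1) := by intro j; rw [hq, hPs]; exact Nat.lt_succ_self _
  have hPm : StrictMono P := strictMono_nat_of_lt_succ (fun j => (hPq j).trans (hqP j))
  have hqm : StrictMono q := strictMono_nat_of_lt_succ (fun j => (hqP j).trans (hPq (j + 1)))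
  have hqt : ∀ j, ‖ψ (P j) (T (Y (q j)))‖ ≤ ε / 4 := by
    intro j
    apply ht
    rw [hq]; exact le_max_left _ _
  obtain ⟨f, hf⟩ : ∃ f : ℕ → (A →L[ℂ] ℂ), f = fun j => (ψ (q j) - ψ (P j)).comp T := ⟨_, rfl⟩
  have hfl : ∀ a, Tendsto (fun n => f n a) atTop (𝓝 0) := by
    intro a
    obtain ⟨l, hl⟩ := hψl (T a)
    have h1 := (hl.comp hqm.tendsto_atTop).sub (hl.comp hPm.tendsto_atTop)
    rw [sub_self] at h1
    rw [hf]
    exact h1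
  have hfv : ∀ j, ε / 2 ≤ vr S (f j) (bb (q j)) := by
    intro j
    have h1 := hV2 (f j) (bb (q j)) (Y (q j)) (hYs (q j))
    have h2 : vr S (f j) (bb (q j)) * ‖Y (q j)‖ ≤ vr S (f j) (bb (q j)) * 1 :=
      mul_le_mul_of_nonneg_left (hYn _) ((hV1 _).nonneg _ (hbbB _))
    have h3 : f j (Y (q j)) = ψ (q j) (T (Y (q j))) - ψ (P j) (T (Y (q j))) := by rw [hf]; rfl
    have h4 := norm_sub_norm_le (ψ (q j) (T (Y (q j)))) (ψ (P j) (T (Y (q j))))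
    rw [← h3] at h4
    have h5 := hψY (q j)
    have h6 := hqt j
    linarith
  have hc : ∀ j, ∃ c ∈ S.B, c ⊆ bb (q j) ∧ ∃ e : A,
      (∀ t, S.ev e t = c.indicator (fun _ => (1 : ℂ)) t) ∧ ε / 2 / 5 ≤ ‖f j e‖ := fun j =>
    hVar5 Ω A S (f j) (bb (q j)) (ε / 2) (hbbB _) (by positivity) (hfv j)
  choose c hcB hcs e he hce using hc
  have h1 := hG f hfl c e hcB (fun m n hmn => (hbbD _ _ (fun h => hmn (hqm.injective h))).mono
    (hcs m) (hcs n)) he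
  have h2 := h1.norm
  rw [norm_zero] at h2
  have h3 : ε / 2 / 5 ≤ 0 := ge_of_tendsto' h2 hce
  linarith

end Pool.Agent.Helper83_DPB.H3
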