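import Pool.Agent.Helper83_DPB.Stmts

open Filter Topology Set

namespace Pool.Agent.Helper83_DPB.H3

theorem LU_const {Ω : Type} {P : Ultrafilter Ω} {f : LI Ω} {z : ℂ}
    (h : {t | (f : Ω → ℂ) t = z} ∈ P) : LU P f = z := by
  refine tendsto_nhds_unique (LU_spec P f) ?_
  refine Tendsto.congr' ?_ tendsto_const_nhds
  filter_upwards [h] with t ht
  exact ht.symm

theorem agree {σ : List Sym} {x y : Pt} (hx : x ∈ cyl σ) (hy : y ∈ cyl σ) :
    ∀ i, i ≤ σ.length → ht x i = ht y i := by
  intro i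
  induction i with
  | zero => intro _; rfl
  | succ i ih =>
    intro hi
    change nxt (ht x i) (x i) = nxt (ht y i) (y i)
    rw [ih (by omega), hx i (by omega), hy i (by omega)]

/-- a general coordinate function -/
theorem core (hHT : HtStmt) {cf : ℕ → Sym → ℕ → ℂ} (h0 : ∀ M s n, cf M s n ≠ 0 → M ≤ n)
    (h1 : ∀ M k n, cf M (.l2 0 k) n = 0) (h2 : ∀ M k n, cf M (.mark k) n = 0)
    (n : ℕ) (σ : List Sym) (s : Sym) : ∃ c : ℂ,
      (∀ x ∈ Pset σ (n + 1), ∑ i ∈ Finset.range (n + 1), cf (ht x i) (x i) n = c) ∧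
      (∀ x ∈ Qset (σ ++ [s]) (n + 1), ∑ i ∈ Finset.range (n + 1), cf (ht x i) (x i) n =
        c + cf (htL σ) s n) := by
  obtain ⟨hA, hB, hC, hD, hE, -, -⟩ := hHT
  have hcut : ∀ (x : Pt) (N : ℕ), (∀ i, N ≤ i → cf (ht x i) (x i) n = 0) →
      ∑ i ∈ Finset.range (n + 1), cf (ht x i) (x i) n = ∑ i ∈ Finset.range N, cf (ht x i) (x i) n := by
    intro x N hN
    have e1 : ∀ M, n + 1 ≤ M → ∑ i ∈ Finset.range (n + 1), cf (ht x i) (x i) n =
        ∑ i ∈ Finset.range M, cf (ht x i) (x i) n := by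
      intro M hM
      apply Finset.sum_subset (Finset.range_mono hM)
      intro i _ hi
      rw [Finset.mem_range, not_lt] at hi
      by_contra hne
      have := h0 _ _ _ hne
      have := hB x i
      omega
    have e2 : ∀ M, N ≤ M → ∑ i ∈ Finset.range N, cf (ht x i) (x i) n =
        ∑ i ∈ Finset.range M, cf (ht x i) (x i) n := by
      intro M hM
      apply Finset.sum_subset (Finset.range_mono hM)
      intro i _ hi
      rw [Finset.mem_range, not_lt] at hi
      exact hN i hi
    rw [e1 (max (n + 1) N) (le_max_left _ _), e2 (max (n + 1) N) (le_max_right _ _)]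
  have hlate : ∀ (x : Pt) (τ : List Sym) (k : ℕ), n + 1 ≤ k → k ≤ ht x (τ.length + 1) →
      ∀ i, τ.length + 1 ≤ i → cf (ht x i) (x i) n = 0 := by
    intro x τ k hk hk2 i hi
    by_contra hne
    have e1 := h0 _ _ _ hne
    have e2 := hC x _ _ hi
    omega
  refine ⟨∑ i ∈ Finset.range σ.length, cf (ht (extPt σ s) i) (extPt σ s i) n, ?_, ?_⟩
  · rintro x ⟨hx, k, hk, hxk⟩
    have e1 : k ≤ ht x (σ.length + 1) := by
      change k ≤ nxt (ht x σ.length) (x σ.length)
      rw [hxk]
      simp [nxt]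
    rw [hcut x σ.length (by
      intro i hi
      rcases Nat.eq_or_lt_of_le hi with h | h
      · rw [← h, hxk]; exact h1 _ _ _
      · exact hlate x σ k hk e1 i h)]
    apply Finset.sum_congr rfl
    intro i hi
    rw [Finset.mem_range] at hi
    rw [agree hx (extPt_mem σ s) i hi.le, hx i hi, extPt_mem σ s i hi]
  · rintro x ⟨hx, k, hk, hxk⟩
    have hx' := (hE σ s x).mp hx
    have e1 : k ≤ ht x ((σ ++ [s]).length + 1) := by
      change k ≤ nxt (ht x (σ ++ [s]).length) (x (σ ++ [s]).length)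
      rw [hxk]
      simp [nxt]
    rw [hcut x (σ ++ [s]).length (by
      intro i hi
      rcases Nat.eq_or_lt_of_le hi with h | h
      · rw [← h, hxk]; exact h2 _ _ _
      · exact hlate x (σ ++ [s]) k hk e1 i h)]
    rw [List.length_append, List.length_singleton, Finset.sum_range_succ, hA σ x hx'.1, hx'.2]
    congr 1
    apply Finset.sum_congr rfl
    intro i hi
    rw [Finset.mem_range] at hi
    rw [agree hx'.1 (extPt_mem σ s) i hi.le, hx'.1 i hi, extPt_mem σ s i hi]

theorem jmp (hHT : HtStmt) : JmpStmt := by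
  intro σ s _ v
  have hF1 : ∀ M s n, cf1 M s n ≠ 0 → M ≤ n := fun M s n h => (hHT.2.2.2.2.2.1 M s n h).1
  have hF2 : ∀ M s n, cf2 M s n ≠ 0 → M ≤ n := fun M s n h => (hHT.2.2.2.2.2.2 M s n h).1
  have j1 : ∀ n, LU (qF (σ ++ [s])) (U1 n) - LU (pF σ) (U1 n) = cf1 (htL σ) s n := by
    intro n
    obtain ⟨c, hc1, hc2⟩ := core hHT (cf := cf1) hF1 (by intro M k n; simp [cf1])
      (by intro M k n; simp [cf1]) n σ s
    have e1 : LU (pF σ) (U1 n) = c := by
      apply LU_const
      filter_upwards [Pset_mem σ (n + 1)] with x hx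
      exact hc1 x hx
    have e2 : LU (qF (σ ++ [s])) (U1 n) = c + cf1 (htL σ) s n := by
      apply LU_const
      filter_upwards [Qset_mem (σ ++ [s]) (n + 1)] with x hx
      exact hc2 x hx
    rw [e1, e2]; ring
  have j2 : ∀ n, LU (qF (σ ++ [s])) (U2 n) - LU (pF σ) (U2 n) = cf2 (htL σ) s n := by
    intro n
    obtain ⟨c, hc1, hc2⟩ := core hHT (cf := cf2) hF2 (by intro M k n; simp [cf2])
      (by intro M k n; simp [cf2]) n σ s
    have e1 : LU (pF σ) (U2 n) = c := by
      apply LU_const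
      filter_upwards [Pset_mem σ (n + 1)] with x hx
      exact hc1 x hx
    have e2 : LU (qF (σ ++ [s])) (U2 n) = c + cf2 (htL σ) s n := by
      apply LU_const
      filter_upwards [Qset_mem (σ ++ [s]) (n + 1)] with x hx
      exact hc2 x hx
    rw [e1, e2]; ring
  unfold UU prg
  rw [map_add, map_add]
  simp only [Finsupp.sum, map_sum, map_smul, smul_eq_mul]
  rw [add_sub_add_comm, ← Finset.sum_sub_distrib, ← Finset.sum_sub_distrib]
  congr 1
  · apply Finset.sum_congr rfl
    intro n _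
    rw [← mul_sub, j1]
  · apply Finset.sum_congr rfl
    intro n _
    rw [← mul_sub, j2]

end Pool.Agent.Helper83_DPB.H3
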