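import Pool.Agent.Helper3_DPB.Jmp

open Filter Topology Set

namespace Pool.Agent.Helper83_DPB.H3

/-- the jump at the root along the symbol s, as a functional on XX -/
noncomputable def kap (s : Sym) : XX →L[ℂ] ℂ :=
  (LU (qF ([] ++ [s])) - LU (pF [])).comp XX.subtypeL

theorem kap_apply (s : Sym) (x : XX) : kap s x = LU (qF ([] ++ [s])) (x : LI Pt) -
    LU (pF []) (x : LI Pt) := rfl

theorem kap_norm (s : Sym) (x : XX) : ‖kap s x‖ ≤ 2 * ‖x‖ := by
  rw [kap_apply]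
  refine (norm_sub_le _ _).trans ?_
  have h1 := LU_norm (qF ([] ++ [s])) (x : LI Pt)
  have h2 := LU_norm (pF []) (x : LI Pt)
  have h3 : ‖(x : LI Pt)‖ = ‖x‖ := rfl
  rw [h3] at h1 h2
  linarith

theorem jump_AA {s : Sym} (hs : isBlk s) {a : LI Pt} (ha : a ∈ AA) :
    LU (qF ([] ++ [s])) a - LU (pF []) a = 0 := by
  have h1 := ha.2 ([], ⟨s, hs⟩)
  have h2 : LU (pF []) a = LU (qF ([] ++ [s])) a := h1
  rw [h2, sub_self]

theorem prg_c0 (n : ℕ) (v : VV) : prg 0 (.c0 n 0) v = v.2 n := by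
  have h1 : (v.1.sum fun m a => a * cf1 0 (.c0 n 0) m) = 0 := by
    rw [Finsupp.sum]
    apply Finset.sum_eq_zero
    intro m _
    simp [cf1]
  have h2 : (v.2.sum fun m a => a * cf2 0 (.c0 n 0) m) = v.2 n := by
    rw [Finsupp.sum, Finset.sum_eq_single n]
    · simp [cf2]
    · intro m _ hm
      simp only [cf2]
      rw [if_neg (fun h => hm h.1.symm), mul_zero]
    · intro h
      rw [Finsupp.notMem_support_iff.mp h, zero_mul]
  rw [prg, h1, h2, zero_add]

theorem htL_nil : htL [] = 0 := rfl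

/-- values of the functional of c0 n 0 -/
theorem kap_val (hJ : JmpStmt) (n : ℕ) {x : XX} {a : LI Pt} (ha : a ∈ AA) (v : VV)
    (hx : (x : LI Pt) = UU v - a) : kap (.c0 n 0) x = v.2 n := by
  rw [kap_apply, hx, map_sub, map_sub]
  have h1 := hJ [] (.c0 n 0) (by trivial) v
  have h2 := jump_AA (s := .c0 n 0) (by trivial) ha
  rw [htL_nil, prg_c0] at h1
  rw [← h1]
  linear_combination -h2

theorem kap_null (hJ : JmpStmt) (hX : XmStmt) (x : XX) :
    Tendsto (fun n => kap (.c0 n 0) x) atTop (𝓝 0) := by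
  rw [Metric.tendsto_atTop]
  intro ε hε
  obtain ⟨v, a, ha, hva⟩ := hX.2.2 x x.2 (ε / 2) (by positivity)
  refine ⟨v.2.support.sup (fun n => n + 1), ?_⟩
  intro n hn
  have hv : v.2 n = 0 := by
    by_contra hne
    have h1 : n + 1 ≤ v.2.support.sup (fun n => n + 1) :=
      Finset.le_sup (f := fun n => n + 1) (Finsupp.mem_support_iff.mpr hne)
    omega
  have h1 := hJ [] (.c0 n 0) (by trivial) v
  have h2 := jump_AA (s := .c0 n 0) (by trivial) ha
  rw [htL_nil, prg_c0, hv] at h1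
  rw [dist_eq_norm, sub_zero]
  have h3 : kap (.c0 n 0) x = LU (qF ([] ++ [.c0 n 0])) ((x : LI Pt) - a - UU v) -
      LU (pF []) ((x : LI Pt) - a - UU v) := by
    rw [kap_apply]
    simp only [map_sub]
    linear_combination h1 + h2
  rw [h3]
  refine lt_of_le_of_lt (norm_sub_le _ _) ?_
  have h4 := LU_norm (qF ([] ++ [.c0 n 0])) ((x : LI Pt) - a - UU v)
  have h5 := LU_norm (pF []) ((x : LI Pt) - a - UU v)
  linarith

section dual
variable {X : Type} [NormedAddCommGroup X] [NormedSpace ℂ X]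

theorem ev_bd {y : ℕ → X} (hy : ∀ n, ‖y n‖ ≤ 1) (f : X →L[ℂ] ℂ) (n : ℕ) :
    ‖f (y n)‖ ≤ ‖f‖ := by
  refine (f.le_opNorm (y n)).trans ?_
  exact mul_le_of_le_one_right (norm_nonneg f) (hy n)

/-- evaluation of a functional along a bounded sequence -/
noncomputable def evF {y : ℕ → X} (hy : ∀ n, ‖y n‖ ≤ 1) (f : X →L[ℂ] ℂ) : LI ℕ :=
  ⟨fun n => f (y n), memℓp_infty ⟨‖f‖, by rintro _ ⟨n, rfl⟩; exact ev_bd hy f n⟩⟩

theorem evF_apply {y : ℕ → X} (hy : ∀ n, ‖y n‖ ≤ 1) (f : X →L[ℂ] ℂ) (n : ℕ) :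
    (evF hy f : ℕ → ℂ) n = f (y n) := rfl

theorem evF_norm {y : ℕ → X} (hy : ∀ n, ‖y n‖ ≤ 1) (f : X →L[ℂ] ℂ) : ‖evF hy f‖ ≤ ‖f‖ :=
  lp.norm_le_of_forall_le (norm_nonneg f) (fun n => ev_bd hy f n)

/-- the limit of a functional along a bounded sequence, as a linear map -/
noncomputable def limL {y : ℕ → X} (hy : ∀ n, ‖y n‖ ≤ 1) : (X →L[ℂ] ℂ) →ₗ[ℂ] ℂ where
  toFun f := LU (hyperfilter ℕ) (evF hy f)
  map_add' f g := by
    have : evF hy (f + g) = evF hy f + evF hy g := by ext n; rfl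
    rw [this, map_add]
  map_smul' c f := by
    have : evF hy (c • f) = c • evF hy f := by ext n; rfl
    rw [this, map_smul]
    rfl

/-- the limit of functionals along a bounded sequence -/
noncomputable def limC (y : ℕ → X) (hy : ∀ n, ‖y n‖ ≤ 1) : (X →L[ℂ] ℂ) →L[ℂ] ℂ :=
  LinearMap.mkContinuous (limL hy) 1 (fun f => by
    rw [one_mul]
    exact (LU_norm _ _).trans (evF_norm hy f))

theorem limC_apply (y : ℕ → X) (hy : ∀ n, ‖y n‖ ≤ 1) (f : X →L[ℂ] ℂ) :
    limC y hy f = LU (hyperfilter ℕ) (evF hy f) := rfl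

end dual

theorem ng (hJ : JmpStmt) (hY : YyStmt) (hX : XmStmt) : NgStmt := by
  classical
  intro hG
  -- the vectors
  have hvec : ∀ N : ℕ, ∃ x : XX, ‖x‖ ≤ 1 ∧ ∀ n ≤ N, kap (.c0 n 0) x = 1 := by
    intro N
    obtain ⟨v2, hv2⟩ : ∃ v2 : ℕ →₀ ℂ, ∀ n, v2 n = if n ≤ N then 1 else 0 := by
      refine ⟨Finsupp.onFinset (Finset.range (N + 1)) (fun n => if n ≤ N then 1 else 0) ?_, ?_⟩
      · intro n hn
        rw [Finset.mem_range]
        by_contra hcon
        apply hn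
        rw [if_neg (by omega)]
      · intro n; rfl
    have hB : Bd ((0, v2) : VV) 1 := by
      refine ⟨zero_le_one, by simp, ?_⟩
      intro n
      change ‖v2 n‖ ≤ 1
      rw [hv2]
      split_ifs <;> simp
    obtain ⟨a, ha, hUa⟩ := hY _ _ hB
    have hmem : UU (0, v2) - a ∈ XX := XX.sub_mem (hX.2.1 _) (AA_le_XX ha)
    refine ⟨⟨_, hmem⟩, hUa, ?_⟩
    intro n hn
    rw [kap_val hJ n ha (0, v2) rfl]
    change v2 n = 1
    rw [hv2, if_pos hn]
  choose y hy1 hy2 using hvec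
  obtain ⟨xi, hxi⟩ : ∃ xi, xi = limC y hy1 := ⟨_, rfl⟩
  have h1 := hG (fun n => kap (.c0 n 0)) 0 (fun x => by
    simpa using kap_null hJ hX x) xi
  rw [map_zero] at h1
  have h2 : ∀ n, xi (kap (.c0 n 0)) = 1 := by
    intro n
    rw [hxi, limC_apply]
    apply LU_const
    have h3 : {N : ℕ | n ≤ N} ∈ hyperfilter ℕ := by
      apply Filter.mem_hyperfilter_of_finite_compl
      have : {N : ℕ | n ≤ N}ᶜ = Set.Iio n := by ext; simp
      rw [this]
      exact Set.finite_Iio n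
    refine Filter.mem_of_superset h3 ?_
    intro N hN
    change (evF hy1 (kap (.c0 n 0)) : ℕ → ℂ) N = 1
    rw [evF_apply]
    exact hy2 N n hN
  have h3 : Tendsto (fun n : ℕ => (1 : ℂ)) atTop (𝓝 0) := by
    refine Tendsto.congr (fun n => ?_) h1
    exact h2 n
  exact one_ne_zero (tendsto_nhds_unique tendsto_const_nhds h3)

end Pool.Agent.Helper83_DPB.H3
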