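import Pool.Agent.Helper3_DPB.Ng

open Filter Topology Set

namespace Pool.Agent.Helper83_DPB.H3

theorem pick (r s : ℝ) (hs : 0 < s) : ∃ b : ℚ, (b : ℝ) ^ 2 ≤ r ^ 2 / s ^ 2 ∧
    r ^ 2 / (2 * s) ≤ b * r := by
  have key : ∀ r : ℝ, 0 < r → ∃ b : ℚ, (b : ℝ) ^ 2 ≤ r ^ 2 / s ^ 2 ∧ r ^ 2 / (2 * s) ≤ b * r := by
    intro r hr
    have h1 : r / (2 * s) < r / s := by
      rw [div_lt_div_iff₀ (by positivity) hs]
      nlinarith [mul_pos hr hs]
    obtain ⟨q, hq1, hq2⟩ := exists_rat_btwn h1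
    have hq0 : (0 : ℝ) < q := lt_trans (by positivity) hq1
    refine ⟨q, ?_, ?_⟩
    · rw [← div_pow]
      exact pow_le_pow_left₀ hq0.le hq2.le 2
    · have h2 : r ^ 2 / (2 * s) = r / (2 * s) * r := by ring
      rw [h2]
      exact mul_le_mul_of_nonneg_right hq1.le hr.le
  rcases lt_trichotomy r 0 with h | h | h
  · obtain ⟨b, h1, h2⟩ := key (-r) (by linarith)
    refine ⟨-b, ?_, ?_⟩
    · push_cast
      rw [neg_sq] at h1 ⊢
      exact h1
    · push_cast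
      rw [neg_sq] at h2
      linarith
  · exact ⟨0, by rw [h]; simp, by rw [h]; simp⟩
  · exact key r h

/-- the real and imaginary parts -/
theorem part_bound (v : ℕ →₀ ℂ) (K : ℝ) (hK : 0 ≤ K) (p : ℂ →+ ℝ) (hp : ∀ z, |p z| ≤ ‖z‖)
    (hp2 : ∀ (z : ℂ) (q : ℚ), p (z * q) = p z * q)
    (h : ∀ b : ℕ →₀ ℚ, adm 0 b → ‖∑ n ∈ v.support, v n * ((b n : ℚ) : ℂ)‖ ≤ K) :
    ∑ n ∈ v.support, (p (v n)) ^ 2 ≤ 4 * K ^ 2 := by
  obtain ⟨R, hR⟩ : ∃ R, R = ∑ n ∈ v.support, (p (v n)) ^ 2 := ⟨_, rfl⟩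
  rw [← hR]
  have hR0 : 0 ≤ R := by rw [hR]; exact Finset.sum_nonneg (fun n _ => sq_nonneg _)
  rcases hR0.eq_or_lt with h0 | h0
  · rw [← h0]; positivity
  have hs : 0 < Real.sqrt R := Real.sqrt_pos.mpr h0
  have hss : Real.sqrt R ^ 2 = R := Real.sq_sqrt hR0
  choose c hc1 hc2 using fun n => pick (p (v n)) (Real.sqrt R) hs
  have hc0 : ∀ n, c n ≠ 0 → n ∈ v.support := by
    intro n hn
    rw [Finsupp.mem_support_iff]
    intro hv
    have h1 := hc1 n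
    rw [hv, map_zero] at h1
    apply hn
    have h2 : (c n : ℝ) ^ 2 ≤ 0 := by simpa using h1
    have h3 : (c n : ℝ) = 0 := by nlinarith [sq_nonneg (c n : ℝ)]
    exact_mod_cast h3
  obtain ⟨b, hb⟩ : ∃ b : ℕ →₀ ℚ, ∀ n, b n = c n :=
    ⟨Finsupp.onFinset v.support c hc0, fun n => rfl⟩
  have hsum : ∑ n ∈ b.support, ((b n : ℚ) : ℝ) ^ 2 ≤ 1 := by
    have h1 : ∑ n ∈ b.support, ((b n : ℚ) : ℝ) ^ 2 ≤ ∑ n ∈ v.support, ((b n : ℚ) : ℝ) ^ 2 := by
      apply Finset.sum_le_sum_of_subset_of_nonneg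
      · intro n hn
        rw [Finsupp.mem_support_iff, hb] at hn
        exact hc0 n hn
      · intro n _ _; positivity
    refine h1.trans ?_
    have h2 : ∑ n ∈ v.support, ((b n : ℚ) : ℝ) ^ 2 ≤ ∑ n ∈ v.support, (p (v n)) ^ 2 / R := by
      apply Finset.sum_le_sum
      intro n _
      have := hc1 n
      rw [hss] at this
      rw [hb]; exact this
    refine h2.trans ?_
    rw [← Finset.sum_div, ← hR, div_self h0.ne']
  have hadm : adm 0 b := by
    refine ⟨fun n _ => Nat.zero_le n, by exact_mod_cast hsum, ?_⟩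
    intro n
    rw [Nat.cast_zero, zero_add, mul_one]
    by_cases hn : n ∈ b.support
    · have h1 : ((b n : ℚ) : ℝ) ^ 2 ≤ 1 :=
        (Finset.single_le_sum (f := fun n => ((b n : ℚ) : ℝ) ^ 2) (fun n _ => sq_nonneg _) hn).trans
          hsum
      have h2 : |((b n : ℚ) : ℝ)| ≤ 1 := by
        rw [← Real.sqrt_sq_eq_abs]
        exact Real.sqrt_le_one.mpr h1
      exact_mod_cast h2
    · rw [Finsupp.notMem_support_iff.mp hn]; simp
  have h1 := h b hadm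
  have h2 := hp (∑ n ∈ v.support, v n * ((b n : ℚ) : ℂ))
  rw [map_sum] at h2
  have h3 : Real.sqrt R / 2 ≤ ∑ n ∈ v.support, p (v n * ((b n : ℚ) : ℂ)) := by
    have h4 : ∑ n ∈ v.support, (p (v n)) ^ 2 / (2 * Real.sqrt R) ≤
        ∑ n ∈ v.support, p (v n * ((b n : ℚ) : ℂ)) := by
      apply Finset.sum_le_sum
      intro n _
      rw [hp2, hb]
      have := hc2 n
      linarith
    refine le_trans (le_of_eq ?_) h4
    rw [← Finset.sum_div, ← hR]
    rw [eq_div_iff (by positivity)]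
    have h6 : Real.sqrt R / 2 * (2 * Real.sqrt R) = Real.sqrt R ^ 2 := by ring
    rw [h6, hss]
  have h4 : Real.sqrt R / 2 ≤ K := by
    refine h3.trans ((le_abs_self _).trans (h2.trans h1))
  have h5 : Real.sqrt R ≤ 2 * K := by linarith
  calc R = Real.sqrt R ^ 2 := hss.symm
    _ ≤ (2 * K) ^ 2 := pow_le_pow_left₀ hs.le h5 2
    _ = 4 * K ^ 2 := by ring

theorem prg_l2 {b : ℕ →₀ ℚ} (hb : adm 0 b) (v : VV) :
    prg 0 (.l2 b 0) v = ∑ n ∈ v.1.support, v.1 n * ((b n : ℚ) : ℂ) := by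
  have h2 : (v.2.sum fun m a => a * cf2 0 (.l2 b 0) m) = 0 := by
    rw [Finsupp.sum]
    apply Finset.sum_eq_zero
    intro m _
    simp [cf2]
  rw [prg, h2, add_zero, Finsupp.sum]
  apply Finset.sum_congr rfl
  intro n _
  simp only [cf1, if_pos hb]

theorem nrm : NrmStmt := by
  intro v K hK h
  have hp : ∀ b : ℕ →₀ ℚ, adm 0 b → ‖∑ n ∈ v.1.support, v.1 n * ((b n : ℚ) : ℂ)‖ ≤ K := by
    intro b hb
    rw [← prg_l2 hb]
    exact h _ (by trivial)
  refine ⟨by positivity, ?_, ?_⟩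
  · have h1 := part_bound v.1 K hK Complex.reAddGroupHom (fun z => Complex.abs_re_le_norm z)
      (fun z q => by
        change (z * (q : ℂ)).re = z.re * q
        rw [show ((q : ℚ) : ℂ) = ((q : ℝ) : ℂ) by push_cast; rfl, Complex.re_mul_ofReal]) hp
    have h2 := part_bound v.1 K hK Complex.imAddGroupHom (fun z => Complex.abs_im_le_norm z)
      (fun z q => by
        change (z * (q : ℂ)).im = z.im * q
        rw [show ((q : ℚ) : ℂ) = ((q : ℝ) : ℂ) by push_cast; rfl, Complex.im_mul_ofReal]) hp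
    have h3 : ∑ n ∈ v.1.support, ‖v.1 n‖ ^ 2 = ∑ n ∈ v.1.support, (v.1 n).re ^ 2 +
        ∑ n ∈ v.1.support, (v.1 n).im ^ 2 := by
      rw [← Finset.sum_add_distrib]
      apply Finset.sum_congr rfl
      intro n _
      rw [Complex.sq_norm, Complex.normSq_apply]
      ring
    rw [h3]
    have h4 : ∑ n ∈ v.1.support, (v.1 n).re ^ 2 ≤ 4 * K ^ 2 := h1
    have h5 : ∑ n ∈ v.1.support, (v.1 n).im ^ 2 ≤ 4 * K ^ 2 := h2
    nlinarith [sq_nonneg K]
  · intro n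
    have h1 := h (.c0 n 0) (by trivial)
    rw [prg_c0] at h1
    linarith

end Pool.Agent.Helper83_DPB.H3
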