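import Pool.Agent.Helper83_DPB.Stmts

open Filter Topology Set

namespace Pool.Agent.Helper83_DPB.H3

/-- iterated preimages -/
noncomputable def itPre {X : Type} [NormedAddCommGroup X] [NormedSpace ℂ X] (pre : X → X) (μ : ℂ)
    (x0 : X) : ℕ → X
  | 0 => x0
  | i + 1 => pre (μ • itPre pre μ x0 i)

theorem ns : NsStmt := by
  intro X _ _ _ T hT hμ hs
  have hinj : ¬ Function.Injective T := by
    intro hi
    apply hT
    rw [ContinuousLinearMap.isUnit_iff_bijective]
    exact ⟨hi, hs⟩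
  obtain ⟨n, hn0, hn⟩ : ∃ n : X, n ≠ 0 ∧ T n = 0 := by
    by_contra hcon
    push Not at hcon
    apply hinj
    intro a b hab
    by_contra hne
    exact hcon (a - b) (sub_ne_zero.mpr hne) (by rw [map_sub, hab, sub_self])
  obtain ⟨e, he⟩ : ∃ e : X, e = ((‖n‖⁻¹ : ℝ) : ℂ) • n := ⟨_, rfl⟩
  have hen : ‖e‖ = 1 := by
    rw [he, norm_smul, Complex.norm_real, norm_inv, norm_norm, inv_mul_cancel₀]
    exact norm_ne_zero_iff.mpr hn0
  have hTe : T e = 0 := by rw [he, map_smul, hn, smul_zero]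
  obtain ⟨C, hC, hpre⟩ := T.exists_preimage_norm_le hs
  choose pre hpre1 hpre2 using hpre
  obtain ⟨μ, hμ0, hμ1, hμ2⟩ := hμ (1 / (4 * C)) (by positivity)
  have hCμ : C * ‖μ‖ ≤ 1 / 4 := by
    have h1 : C * ‖μ‖ ≤ C * (1 / (4 * C)) := mul_le_mul_of_nonneg_left hμ1.le hC.le
    have h2 : C * (1 / (4 * C)) = 1 / 4 := by field_simp
    linarith
  obtain ⟨x, hx⟩ : ∃ x : ℕ → X, x = itPre pre μ e := ⟨_, rfl⟩
  have hx0 : x 0 = e := by rw [hx]; rfl
  have hxs : ∀ i, x (i + 1) = pre (μ • x i) := by intro i; rw [hx]; rfl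
  have hbd : ∀ i, ‖x i‖ ≤ (1 / 4 : ℝ) ^ i := by
    intro i
    induction i with
    | zero => rw [hx0, hen, pow_zero]
    | succ i ih =>
      rw [hxs]
      refine (hpre2 _).trans ?_
      rw [norm_smul, ← mul_assoc, pow_succ']
      exact mul_le_mul hCμ ih (norm_nonneg _) (by norm_num)
  have hgeo : Summable (fun i : ℕ => (1 / 4 : ℝ) ^ i) :=
    summable_geometric_of_lt_one (by norm_num) (by norm_num)
  have hsum : Summable x := Summable.of_norm_bounded hgeo hbd
  have hsum1 : Summable (fun i => x (i + 1)) := (summable_nat_add_iff 1).mpr hsum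
  have hz : ∑' i, x i = x 0 + ∑' i, x (i + 1) := hsum.tsum_eq_zero_add
  have hTz : T (∑' i, x i) = μ • ∑' i, x i := by
    rw [hz, map_add, hx0, hTe, zero_add, T.map_tsum hsum1]
    have h1 : ∀ i, T (x (i + 1)) = μ • x i := by intro i; rw [hxs, hpre1]
    simp only [h1]
    rw [tsum_const_smul'' μ, hz, hx0]
  have hsmall : ‖∑' i, x (i + 1)‖ ≤ 1 / 3 := by
    have h1 : ∀ i, ‖x (i + 1)‖ ≤ (1 / 4 : ℝ) * (1 / 4) ^ i := by
      intro i
      have := hbd (i + 1)
      rwa [pow_succ'] at this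
    have h2 : HasSum (fun i : ℕ => (1 / 4 : ℝ) * (1 / 4) ^ i) (1 / 4 * (1 - 1 / 4)⁻¹) :=
      (hasSum_geometric_of_lt_one (by norm_num) (by norm_num)).mul_left _
    have h3 := tsum_of_norm_bounded h2 h1
    norm_num at h3 ⊢
    exact h3
  have hne : ∑' i, x i ≠ 0 := by
    intro h0
    rw [hz, hx0] at h0
    have h1 : e = -∑' i, x (i + 1) := eq_neg_of_add_eq_zero_left h0
    have h2 := congrArg norm h1
    rw [norm_neg, hen] at h2
    linarith
  have hi := (ContinuousLinearMap.isUnit_iff_bijective.mp hμ2).1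
  apply hne
  apply hi
  rw [map_zero]
  change T (∑' i, x i) - μ • (∑' i, x i) = 0
  rw [hTz, sub_self]

end Pool.Agent.Helper83_DPB.H3
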