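import Pool.Agent.Helper83_DPB.Stmts

open Filter Topology Set

namespace Pool.Agent.Helper83_DPB.H3

section
variable {Ω A : Type} [NormedAddCommGroup A] [NormedSpace ℂ A]

theorem chg_empty {B : Set (Set Ω)} (hB : IsAlg B) {v : Set Ω → ℝ} (hv : IsChg B v) : v ∅ = 0 := by
  have h1 := hv.add ∅ hB.empty ∅ hB.empty (by simp)
  rw [Set.union_self] at h1
  linarith

theorem alg_inter {B : Set (Set Ω)} (hB : IsAlg B) {b c : Set Ω} (hb : b ∈ B) (hc : c ∈ B) :
    b ∩ c ∈ B := by
  have h1 := hB.compl _ (hB.union _ (hB.compl _ hb) _ (hB.compl _ hc))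
  rwa [Set.compl_union, compl_compl, compl_compl] at h1

theorem alg_diff {B : Set (Set Ω)} (hB : IsAlg B) {b c : Set Ω} (hb : b ∈ B) (hc : c ∈ B) :
    b \ c ∈ B := by
  rw [Set.diff_eq]; exact alg_inter hB hb (hB.compl _ hc)

theorem chg_diff {B : Set (Set Ω)} (hB : IsAlg B) {v : Set Ω → ℝ} (hv : IsChg B v) {b c : Set Ω}
    (hb : b ∈ B) (hc : c ∈ B) : v b = v (b ∩ c) + v (b \ c) := by
  have h1 := hv.add (b ∩ c) (alg_inter hB hb hc) (b \ c) (alg_diff hB hb hc)
    (Set.disjoint_of_subset_left Set.inter_subset_right Set.disjoint_sdiff_right)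
  rw [Set.inter_union_diff] at h1
  exact h1

theorem chg_mono {B : Set (Set Ω)} (hB : IsAlg B) {v : Set Ω → ℝ} (hv : IsChg B v) {b c : Set Ω}
    (hb : b ∈ B) (hc : c ∈ B) (hbc : b ⊆ c) : v b ≤ v c := by
  have h1 := chg_diff hB hv hc hb
  rw [Set.inter_eq_self_of_subset_right hbc] at h1
  have h2 := hv.nonneg _ (alg_diff hB hc hb)
  linarith

theorem ev_inj (S : BFS Ω A) {a a' : A} (h : ∀ t, S.ev a t = S.ev a' t) : a = a' := by
  have h1 := S.le_ev (a - a') 0 le_rfl (fun t => by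
    rw [map_sub, Pi.sub_apply, h t, sub_self, norm_zero])
  exact sub_eq_zero.mp (norm_le_zero_iff.mp h1)

theorem ind_norm (b : Set Ω) (f : Ω → ℂ) (t : Ω) : ‖b.indicator f t‖ ≤ ‖f t‖ := by
  by_cases h : t ∈ b
  · rw [Set.indicator_of_mem h]
  · rw [Set.indicator_of_notMem h, norm_zero]; exact norm_nonneg _

/-- restriction of an element to a set -/
noncomputable def cutF (S : BFS Ω A) (b : Set Ω) (hb : b ∈ S.B) (a : A) : A :=
  (S.cut_ex b hb a).choose

theorem cutF_ev (S : BFS Ω A) (b : Set Ω) (hb : b ∈ S.B) (a : A) (t : Ω) :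
    S.ev (cutF S b hb a) t = b.indicator (S.ev a) t := (S.cut_ex b hb a).choose_spec t

/-- restriction as a continuous linear map -/
noncomputable def cut (S : BFS Ω A) (b : Set Ω) (hb : b ∈ S.B) : A →L[ℂ] A :=
  LinearMap.mkContinuous
    { toFun := cutF S b hb
      map_add' := fun x y => by
        apply ev_inj S
        intro t
        rw [map_add, Pi.add_apply, cutF_ev, cutF_ev, cutF_ev, map_add]
        by_cases h : t ∈ b
        · rw [Set.indicator_of_mem h, Set.indicator_of_mem h, Set.indicator_of_mem h]; rfl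
        · rw [Set.indicator_of_notMem h, Set.indicator_of_notMem h, Set.indicator_of_notMem h,
            add_zero]
      map_smul' := fun c x => by
        apply ev_inj S
        intro t
        rw [RingHom.id_apply, map_smul, Pi.smul_apply, cutF_ev, cutF_ev, map_smul]
        by_cases h : t ∈ b
        · rw [Set.indicator_of_mem h, Set.indicator_of_mem h]; rfl
        · rw [Set.indicator_of_notMem h, Set.indicator_of_notMem h, smul_zero] }
    1 (fun x => by
      rw [one_mul]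
      apply S.le_ev _ _ (norm_nonneg _)
      intro t
      change ‖S.ev (cutF S b hb x) t‖ ≤ _
      rw [cutF_ev]
      exact (ind_norm _ _ _).trans (S.ev_le x t))

theorem cut_ev (S : BFS Ω A) (b : Set Ω) (hb : b ∈ S.B) (a : A) (t : Ω) :
    S.ev (cut S b hb a) t = b.indicator (S.ev a) t := cutF_ev S b hb a t

theorem cut_norm (S : BFS Ω A) (b : Set Ω) (hb : b ∈ S.B) (a : A) : ‖cut S b hb a‖ ≤ ‖a‖ := by
  apply S.le_ev _ _ (norm_nonneg _)
  intro t
  rw [cut_ev]
  exact (ind_norm _ _ _).trans (S.ev_le a t)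

theorem cut_add (S : BFS Ω A) (b : Set Ω) (hb : b ∈ S.B) (a : A) :
    cut S bᶜ (S.alg.compl b hb) a + cut S b hb a = a := by
  apply ev_inj S
  intro t
  rw [map_add, Pi.add_apply, cut_ev, cut_ev]
  by_cases h : t ∈ b
  · rw [Set.indicator_of_mem h, Set.indicator_of_notMem (by simpa using h), zero_add]
  · rw [Set.indicator_of_notMem h, Set.indicator_of_mem (by simpa using h), add_zero]

end

theorem split (hU : UlimStmt) (hVar : VarStmt) : SplitStmt := by
  intro Ω A _ _ S D m δ θ hm hδ hθ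
  obtain ⟨hV1, hV2, hV3, hV4, -, -, hV7⟩ := hVar Ω A S
  obtain ⟨L, hL⟩ : ∃ L, L = 2 * (‖D‖ + 1) / δ := ⟨_, rfl⟩
  have hL0 : 0 < L := by rw [hL]; positivity
  rw [← hL]
  have hDc := hV1 D
  -- the supremum
  obtain ⟨Sp, hSp⟩ : ∃ Sp, Sp = sSup ((fun b => vr S D b - L * m b) '' S.B) := ⟨_, rfl⟩
  have hbdd : BddAbove ((fun b => vr S D b - L * m b) '' S.B) := by
    refine ⟨‖D‖, ?_⟩
    rintro _ ⟨b, hb, rfl⟩
    have h1 := hV3 D b
    have h2 := mul_nonneg hL0.le (hm.nonneg b hb)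
    simp only
    linarith
  have hle : ∀ b ∈ S.B, vr S D b - L * m b ≤ Sp := by
    intro b hb
    rw [hSp]
    exact le_csSup hbdd ⟨b, hb, rfl⟩
  have hSp0 : 0 ≤ Sp := by
    have h1 := hle ∅ S.alg.empty
    rw [chg_empty S.alg hDc, chg_empty S.alg hm, mul_zero, sub_zero] at h1
    exact h1
  have hex : ∀ i : ℕ, ∃ b ∈ S.B, Sp - 1 / ((i : ℝ) + 1) < vr S D b - L * m b := by
    intro i
    have h1 : Sp - 1 / ((i : ℝ) + 1) < sSup ((fun b => vr S D b - L * m b) '' S.B) := by
      rw [← hSp]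
      have : 0 < 1 / ((i : ℝ) + 1) := by positivity
      linarith
    obtain ⟨_, ⟨b, hb, rfl⟩, h2⟩ := exists_lt_of_lt_csSup
      (⟨_, ⟨∅, S.alg.empty, rfl⟩⟩ : ((fun b => vr S D b - L * m b) '' S.B).Nonempty) h1
    exact ⟨b, hb, h2⟩
  choose b hbB hb using hex
  have hone : ∀ i : ℕ, 1 / ((i : ℝ) + 1) ≤ 1 := by
    intro i
    rw [div_le_one (by positivity)]
    have : (0 : ℝ) ≤ i := Nat.cast_nonneg i
    linarith
  have hmb : ∀ i, m (b i) < δ := by
    intro i
    have h1 := hb i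
    have h2 := hone i
    have h3 := hV3 D (b i)
    have h4 : L * m (b i) ≤ ‖D‖ + 1 := by linarith
    have h5 : L * m (b i) < L * δ := by
      have : L * δ = 2 * (‖D‖ + 1) := by rw [hL]; field_simp
      have h6 := norm_nonneg D
      linarith
    exact lt_of_mul_lt_mul_left h5 hL0.le
  have hvb : ∀ i, vr S D (b i) ≤ θ := fun i => hθ _ (hbB i) (hmb i)
  have hout : ∀ i, ∀ c ∈ S.B, Disjoint c (b i) → vr S D c ≤ L * m c + 1 / ((i : ℝ) + 1) := by
    intro i c hc hd
    have h1 := hle (b i ∪ c) (S.alg.union _ (hbB i) _ hc)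
    rw [hDc.add _ (hbB i) _ hc hd.symm, hm.add _ (hbB i) _ hc hd.symm] at h1
    have h2 := hb i
    rw [mul_add] at h1
    linarith
  -- the pieces
  obtain ⟨g, hgn, hg⟩ := hU A (fun i => D.comp (cut S (b i)ᶜ (S.alg.compl _ (hbB i)))) ‖D‖ (by
    intro i
    refine ContinuousLinearMap.opNorm_le_bound _ (norm_nonneg _) (fun y => ?_)
    exact (D.le_opNorm _).trans (mul_le_mul_of_nonneg_left (cut_norm _ _ _ _) (norm_nonneg _)))
  obtain ⟨r, hrn, hr⟩ := hU A (fun i => D.comp (cut S (b i) (hbB i))) θ (by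
    intro i
    have hθ0 : 0 ≤ θ := (hDc.nonneg _ (hbB i)).trans (hvb i)
    refine ContinuousLinearMap.opNorm_le_bound _ hθ0 (fun y => ?_)
    have h1 := hV2 D (b i) (cut S (b i) (hbB i) y) (fun t ht => by
      rw [cut_ev, Set.indicator_of_notMem ht])
    refine h1.trans ?_
    exact mul_le_mul (hvb i) (cut_norm _ _ _ _) (norm_nonneg _) hθ0)
  refine ⟨g, r, ?_, hrn, ?_⟩
  · ext y
    have h1 := (hg y).add (hr y)
    have h2 : ∀ i, D.comp (cut S (b i)ᶜ (S.alg.compl _ (hbB i))) y +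
        D.comp (cut S (b i) (hbB i)) y = D y := by
      intro i
      have h3 : D (cut S (b i)ᶜ (S.alg.compl _ (hbB i)) y + cut S (b i) (hbB i) y) = D y := by
        rw [cut_add]
      rw [map_add] at h3
      exact h3
    simp only [h2] at h1
    exact tendsto_nhds_unique tendsto_const_nhds h1
  · intro c hc
    have hmc : 0 ≤ L * m c := mul_nonneg hL0.le (hm.nonneg c hc)
    by_contra hcon
    push Not at hcon
    obtain ⟨y, hy1, hy2, hy3⟩ := hV7 g c _ hcon
    have h1 := (hg y).norm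
    have h2 : ∀ i, ‖D.comp (cut S (b i)ᶜ (S.alg.compl _ (hbB i))) y‖ ≤
        L * m c + 1 / ((i : ℝ) + 1) := by
      intro i
      have h3 := hV2 D (c \ b i) (cut S (b i)ᶜ (S.alg.compl _ (hbB i)) y) (by
        intro t ht
        rw [cut_ev]
        by_cases h4 : t ∈ b i
        · rw [Set.indicator_of_notMem (by simpa using h4)]
        · rw [Set.indicator_of_mem (by simpa using h4)]
          apply hy2
          intro h5
          exact ht ⟨h5, h4⟩)
      have hcb := alg_diff S.alg hc (hbB i)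
      have h4 := hout i (c \ b i) hcb (Set.disjoint_sdiff_left)
      have h5 : m (c \ b i) ≤ m c := chg_mono S.alg hm hcb hc Set.sdiff_subset
      have h6 : ‖cut S (b i)ᶜ (S.alg.compl _ (hbB i)) y‖ ≤ 1 := (cut_norm _ _ _ _).trans hy1
      have h7 : vr S D (c \ b i) * ‖cut S (b i)ᶜ (S.alg.compl _ (hbB i)) y‖ ≤
          vr S D (c \ b i) * 1 := mul_le_mul_of_nonneg_left h6 (hDc.nonneg _ hcb)
      have h8 : L * m (c \ b i) ≤ L * m c := mul_le_mul_of_nonneg_left h5 hL0.le
      have h9 : ‖D (cut S (b i)ᶜ (S.alg.compl _ (hbB i)) y)‖ ≤ L * m c + 1 / ((i : ℝ) + 1) := by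
        linarith
      exact h9
    have h3 : Tendsto (fun i : ℕ => L * m c + 1 / ((i : ℝ) + 1)) (hyperfilter ℕ : Filter ℕ)
        (𝓝 (L * m c + 0)) := by
      apply Tendsto.mono_left _ Nat.hyperfilter_le_atTop
      exact tendsto_const_nhds.add tendsto_one_div_add_atTop_nhds_zero_nat
    rw [add_zero] at h3
    have h4 := le_of_tendsto_of_tendsto' h1 h3 h2
    linarith

end Pool.Agent.Helper83_DPB.H3
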