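import Pool.Agent.Helper83_DPB.Stmts

open Filter Topology Set

namespace Pool.Agent.Helper83_DPB.H3

theorem meas_ht (i : ℕ) : Measurable (fun x : Pt => ht x i) := by
  induction i with
  | zero => exact measurable_const
  | succ i ih =>
    have h1 : Measurable (fun x : Pt => (ht x i, x i)) := ih.prodMk (measurable_pi_apply i)
    have h2 : Measurable (fun p : ℕ × Sym => nxt p.1 p.2) := measurable_from_prod_countable_right
      (fun s => measurable_from_top)
    exact h2.comp h1

theorem meas_u1 (n : ℕ) : Measurable (fun x : Pt => u1 n x) := by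
  unfold u1
  apply Finset.measurable_sum
  intro i _
  have h1 : Measurable (fun x : Pt => (ht x i, x i)) := (meas_ht i).prodMk (measurable_pi_apply i)
  have h2 : Measurable (fun p : ℕ × Sym => cf1 p.1 p.2 n) := measurable_from_prod_countable_right
      (fun s => measurable_from_top)
  exact h2.comp h1

theorem meas_u2 (n : ℕ) : Measurable (fun x : Pt => u2 n x) := by
  unfold u2
  apply Finset.measurable_sum
  intro i _
  have h1 : Measurable (fun x : Pt => (ht x i, x i)) := (meas_ht i).prodMk (measurable_pi_apply i)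
  have h2 : Measurable (fun p : ℕ × Sym => cf2 p.1 p.2 n) := measurable_from_prod_countable_right
      (fun s => measurable_from_top)
  exact h2.comp h1

/-- measurable bounded functions -/
noncomputable def MM : Submodule ℂ (LI Pt) where
  carrier := {f | Measurable (f : Pt → ℂ)}
  add_mem' := by
    intro f g hf hg
    have := Measurable.add hf hg
    exact this
  zero_mem' := by
    have : Measurable (0 : Pt → ℂ) := measurable_zero
    exact this
  smul_mem' := by
    intro c f hf
    have := Measurable.const_smul hf c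
    exact this

theorem isClosed_MM : IsClosed (MM : Set (LI Pt)) := by
  rw [← isSeqClosed_iff_isClosed]
  intro f g hf hfg
  have h1 : ∀ t, Tendsto (fun n => (f n : Pt → ℂ) t) atTop (𝓝 ((g : Pt → ℂ) t)) := by
    intro t
    rw [tendsto_iff_norm_sub_tendsto_zero]
    refine squeeze_zero (fun n => norm_nonneg _) (fun n => ?_)
      (tendsto_iff_norm_sub_tendsto_zero.mp hfg)
    have h2 := li_bdd (f n - g) t
    simpa using h2
  exact measurable_of_tendsto_metrizable (fun n => hf n) (tendsto_pi_nhds.mpr h1)

theorem XX_le_MM : XX ≤ MM := by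
  apply Submodule.topologicalClosure_minimal _ _ isClosed_MM
  apply sup_le
  · intro f hf; exact hf.1
  · rw [Submodule.span_le]
    rintro _ (⟨n, rfl⟩ | ⟨n, rfl⟩)
    · exact meas_u1 n
    · exact meas_u2 n

theorem UU_mem_span (v : VV) : UU v ∈ Submodule.span ℂ (Set.range U1 ∪ Set.range U2) := by
  unfold UU
  apply Submodule.add_mem
  · apply Submodule.sum_mem
    intro n _
    exact Submodule.smul_mem _ _ (Submodule.subset_span (Or.inl ⟨n, rfl⟩))
  · apply Submodule.sum_mem
    intro n _
    exact Submodule.smul_mem _ _ (Submodule.subset_span (Or.inr ⟨n, rfl⟩))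

theorem UU_mem_XX (v : VV) : UU v ∈ XX :=
  Submodule.le_topologicalClosure _ (Submodule.mem_sup_right (UU_mem_span v))

theorem span_UU {s : LI Pt} (hs : s ∈ Submodule.span ℂ (Set.range U1 ∪ Set.range U2)) :
    ∃ v : VV, UU v = s := by
  rw [Submodule.span_union, Submodule.mem_sup] at hs
  obtain ⟨s1, hs1, s2, hs2, rfl⟩ := hs
  obtain ⟨c1, hc1⟩ := (Finsupp.mem_span_range_iff_exists_finsupp).mp hs1
  obtain ⟨c2, hc2⟩ := (Finsupp.mem_span_range_iff_exists_finsupp).mp hs2
  exact ⟨(c1, c2), by unfold UU; rw [← hc1, ← hc2]⟩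

theorem xm : XmStmt := by
  refine ⟨fun x hx => XX_le_MM hx, UU_mem_XX, ?_⟩
  intro x hx ε hε
  have h1 : x ∈ closure ((AA ⊔ Submodule.span ℂ (Set.range U1 ∪ Set.range U2) :
      Submodule ℂ (LI Pt)) : Set (LI Pt)) := by
    rw [← Submodule.topologicalClosure_coe]; exact hx
  obtain ⟨y, hy, hxy⟩ := Metric.mem_closure_iff.mp h1 ε hε
  obtain ⟨a, ha, s, hs, rfl⟩ := Submodule.mem_sup.mp hy
  obtain ⟨v, rfl⟩ := span_UU hs
  refine ⟨v, a, ha, ?_⟩
  rw [dist_eq_norm] at hxy
  rwa [sub_sub]

end Pool.Agent.Helper83_DPB.H3
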